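import Pool.Agent.MVK.Stmts

/-!
Row KAX of squad MVK: the class division.
-/

set_option autoImplicit false

namespace Pool.Agent.MVK.H60

open Pool.Agent.Helper14_MV Pool.Agent.Helper2_MV Pool.Agent.MVD Pool.Agent.MVK

theorem kax (hmir : MVD.MirStmt) (hffc : FfcStmt) (hffl : FflStmt) (_hffr : FfrStmt)
    (hf1x : F1xStmt) : KaxStmt := by
  intro β hM hQ hI
  obtain ⟨m0, mM, -, mI, m1, m2, m3, -, -, -, -, -, -, -, mL, -⟩ := hmir β
  have mm := hmir (mir β)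
  have hQ' : CQ (mir β) := by
    constructor
    · exact (m0 _ _).2 hQ.1.symm
    · exact (m0 _ _).2 hQ.2.symm
  have hFZ : FF (mir β) ↔ ZZ β := (hmir β).2.2.2.2.2.2.2.2.2.2.2.2.1
  have hR0 : R0 β := by
    have h := RR.sub (fun c => if c = 2 then [3, 3] else [c]) hQ.1
    exact h
  by_cases h2 : S2 β
  · by_cases h1 : S1 β
    · exact Or.inl ⟨h1, h2, hR0⟩
    · by_cases h3 : S3 β
      · exact Or.inr (Or.inl ⟨h2, h3, hR0⟩)
      · refine Or.inr (Or.inr (Or.inl ⟨h2, hffc β hM hQ hI h2 h1 h3, ?_⟩))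
        exact hFZ.1 (hffc (mir β) (mM hM) hQ' (mI hI) (m2.2 h2) (fun h => h3 (m1.1 h))
          (fun h => h1 (m3.1 h)))
  · obtain ⟨hL, hR⟩ := hf1x β hM hQ hI
    refine Or.inr (Or.inr (Or.inr (Or.inl ⟨hL, hffl β hM hQ hI h2 hL, ?_⟩)))
    exact hFZ.1 (hffl (mir β) (mM hM) hQ' (mI hI) (fun h => h2 (m2.1 h)) (mL.2 hR))

end Pool.Agent.MVK.H60
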